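import Mathlib
import Pool.Agent.Lib.helper23.LqA

namespace Pool.Agent.Results.MP_11217e_co.OrderTwelve

/-- Every symbol occurs exactly once in each row and each column. -/
def IsLatin {α : Type} (L : α → α → α) : Prop :=
  (∀ i, Function.Bijective (L i)) ∧ ∀ j, Function.Bijective fun i => L i j

/-- Each cell `(r, c)` lies in exactly `h` intercalates, counted by the opposite cell. -/
def Homog {α : Type} (L : α → α → α) (h : ℕ) : Prop :=
  ∀ r c, {p : α × α | p.1 ≠ r ∧ p.2 ≠ c ∧ L r c = L p.1 p.2 ∧ L r p.2 = L p.1 c}.ncard = h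

theorem result : ∀ m : ℕ, Odd m → ∃ (α : Type) (_ : Finite α), Nat.card α = 12 * m ∧
    ∃ L : α → α → α, IsLatin L ∧ Homog L 4 :=
  fun m hm => Pool.Agent.Lib.helper23.LqA.main m hm

end Pool.Agent.Results.MP_11217e_co.OrderTwelve
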